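import Mathlib

/-! The equation `ω α β (α + β) = ω' α' β' (α' + β')` with `α = r g`, `β = h x`, `α' = s g`,
`β' = h y`. -/

set_option autoImplicit false

namespace Pool.Agent.Y911.RD

/-- the data of a solution -/
structure Sol (ω ω' r s g h x y : ℤ) : Prop where
  ω0 : ω ≠ 0
  ω'0 : ω' ≠ 0
  r0 : 0 < r
  s0 : 0 < s
  g0 : 0 < g
  h0 : 0 < h
  x0 : x ≠ 0
  y0 : y ≠ 0
  rs : IsCoprime r s
  xy : IsCoprime x y
  c₁ : IsCoprime (r * g) (h * x)
  c₂ : IsCoprime (s * g) (h * y)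
  eq : ω * (r * g) * (h * x) * (r * g + h * x) = ω' * (s * g) * (h * y) * (s * g + h * y)

variable {ω ω' r s g h x y : ℤ}

theorem Sol.eq' (S : Sol ω ω' r s g h x y) :
    g * (ω * r ^ 2 * x - ω' * s ^ 2 * y) = h * (ω' * s * y ^ 2 - ω * r * x ^ 2) := by
  have h1 := S.eq
  have h2 : (g * h) * (g * (ω * r ^ 2 * x - ω' * s ^ 2 * y)) =
      (g * h) * (h * (ω' * s * y ^ 2 - ω * r * x ^ 2)) := by linear_combination h1
  exact mul_left_cancel₀ (mul_ne_zero S.g0.ne' S.h0.ne') h2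

theorem Sol.gh (S : Sol ω ω' r s g h x y) : IsCoprime g h :=
  (IsCoprime.of_mul_left_right S.c₁).of_mul_right_left

theorem Sol.exists_u (S : Sol ω ω' r s g h x y) : ∃ u : ℤ,
    ω * r ^ 2 * x - ω' * s ^ 2 * y = h * u ∧ ω' * s * y ^ 2 - ω * r * x ^ 2 = g * u := by
  have h1 := S.eq'
  have h2 : h ∣ g * (ω * r ^ 2 * x - ω' * s ^ 2 * y) := ⟨_, h1⟩
  obtain ⟨u, hu⟩ := S.gh.symm.dvd_of_dvd_mul_left h2
  refine ⟨u, hu, ?_⟩
  rw [hu] at h1
  have h3 : h * (ω' * s * y ^ 2 - ω * r * x ^ 2) = h * (g * u) := by rw [← h1]; ring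
  exact mul_left_cancel₀ S.h0.ne' h3

/-- `u` divides `ω ω' r s (ω r ³ - ω' s ³)` -/
theorem Sol.dvd (S : Sol ω ω' r s g h x y) {u : ℤ}
    (h1 : ω * r ^ 2 * x - ω' * s ^ 2 * y = h * u)
    (h2 : ω' * s * y ^ 2 - ω * r * x ^ 2 = g * u) :
    u ∣ ω * ω' * r * s * (ω * r ^ 3 - ω' * s ^ 3) := by
  have d1 : u ∣ ω' * s * y ^ 2 * (ω * r ^ 3 - ω' * s ^ 3) := by
    refine ⟨ω * r ^ 3 * g + h * (ω * r ^ 2 * x + ω' * s ^ 2 * y), ?_⟩
    linear_combination (ω * r ^ 3) * h2 + (ω * r ^ 2 * x + ω' * s ^ 2 * y) * h1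
  have d2 : u ∣ ω * r * x ^ 2 * (ω * r ^ 3 - ω' * s ^ 3) := by
    refine ⟨ω' * s ^ 3 * g + h * (ω * r ^ 2 * x + ω' * s ^ 2 * y), ?_⟩
    linear_combination (ω' * s ^ 3) * h2 + (ω * r ^ 2 * x + ω' * s ^ 2 * y) * h1
  obtain ⟨m, n, hmn⟩ := (S.xy.pow (m := 2) (n := 2) : IsCoprime (x ^ 2) (y ^ 2))
  have e : ω * ω' * r * s * (ω * r ^ 3 - ω' * s ^ 3) =
      (ω' * s * m) * (ω * r * x ^ 2 * (ω * r ^ 3 - ω' * s ^ 3)) +
      (ω * r * n) * (ω' * s * y ^ 2 * (ω * r ^ 3 - ω' * s ^ 3)) := by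
    linear_combination (-(ω * ω' * r * s * (ω * r ^ 3 - ω' * s ^ 3))) * hmn
  rw [e]
  exact dvd_add (dvd_mul_of_dvd_right d2 _) (dvd_mul_of_dvd_right d1 _)

theorem unit_pos {a : ℤ} (ha : 0 < a) (h : IsUnit a) : a = 1 := by
  rcases Int.isUnit_iff.1 h with h | h
  · exact h
  · omega

/-- if `r y = s x` then `r = s = 1` and `x = y` -/
theorem Sol.of_prop (S : Sol ω ω' r s g h x y) (e : r * y = s * x) : r = 1 ∧ s = 1 ∧ x = y := by
  have h1 : r ∣ x := S.rs.dvd_of_dvd_mul_left ⟨y, e.symm⟩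
  have h2 : s ∣ y := S.rs.symm.dvd_of_dvd_mul_left ⟨x, e⟩
  have hr : r = 1 := by
    refine unit_pos S.r0 ?_
    exact S.c₁.isUnit_of_dvd' (dvd_mul_right _ _) (h1.mul_left h)
  have hs : s = 1 := by
    refine unit_pos S.s0 ?_
    exact S.c₂.isUnit_of_dvd' (dvd_mul_right _ _) (h2.mul_left h)
  rw [hr, hs, one_mul, one_mul] at e
  exact ⟨hr, hs, e.symm⟩

/-- **The degenerate solutions.** -/
theorem Sol.degenerate (S : Sol ω ω' r s g h x y)
    (hd : ω * r ^ 2 * x - ω' * s ^ 2 * y = 0 ∨ ω * r ^ 3 - ω' * s ^ 3 = 0) :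
    r = 1 ∧ s = 1 ∧ ω = ω' ∧ (x = y ∨ g + h * x = -(h * y)) := by
  rcases hd with h1 | h1
  · have h2 : ω' * s * y ^ 2 - ω * r * x ^ 2 = 0 := by
      have := S.eq'
      rw [h1, mul_zero] at this
      rcases mul_eq_zero.1 this.symm with h3 | h3
      · exact absurd h3 S.h0.ne'
      · exact h3
    have h3 : r * y = s * x := by
      have h4 : (ω * r * x) * (r * y) = (ω * r * x) * (s * x) := by
        linear_combination y * h1 + s * h2
      exact mul_left_cancel₀ (mul_ne_zero (mul_ne_zero S.ω0 S.r0.ne') S.x0) h4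
    obtain ⟨hr, hs, hxy⟩ := S.of_prop h3
    refine ⟨hr, hs, ?_, Or.inl hxy⟩
    rw [hr, hs, hxy] at h1
    have h5 : (ω - ω') * y = 0 := by linear_combination h1
    rcases mul_eq_zero.1 h5 with h6 | h6
    · linarith
    · exact absurd h6 S.y0
  · by_cases h2 : r * y = s * x
    · obtain ⟨hr, hs, hxy⟩ := S.of_prop h2
      refine ⟨hr, hs, ?_, Or.inl hxy⟩
      rw [hr, hs] at h1
      linarith
    · have h3 : s * x - r * y ≠ 0 := fun h => h2 (by linarith)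
      have h4 : g * s * r = -(h * (s * x + r * y)) := by
        have h5 := S.eq'
        have h6 : (ω * r * (s * x - r * y)) * (g * s * r) =
            (ω * r * (s * x - r * y)) * (-(h * (s * x + r * y))) := by
          linear_combination (s ^ 2) * h5 + (-(g * s * y) - h * y ^ 2) * h1
        exact mul_left_cancel₀ (mul_ne_zero (mul_ne_zero S.ω0 S.r0.ne') h3) h6
      have hs : s = 1 := by
        refine unit_pos S.s0 ?_
        refine S.c₂.isUnit_of_dvd' (dvd_mul_right _ _) ?_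
        have h5 : s ∣ r * (h * y) := ⟨-(r * g + h * x), by linear_combination h4⟩
        exact S.rs.symm.dvd_of_dvd_mul_left h5
      have hr : r = 1 := by
        refine unit_pos S.r0 ?_
        refine S.c₁.isUnit_of_dvd' (dvd_mul_right _ _) ?_
        have h5 : r ∣ s * (h * x) := ⟨-(s * g + h * y), by linear_combination h4⟩
        exact S.rs.dvd_of_dvd_mul_left h5
      refine ⟨hr, hs, ?_, Or.inr ?_⟩
      · rw [hr, hs] at h1
        linarith
      · rw [hr, hs] at h4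
        linarith

end Pool.Agent.Y911.RD
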