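import Pool.Agent.Y911.RD.Alg
import Pool.Agent.H510R2.Div

/-! The number of solutions of `ω α β (α + β) = ω' α' β' (α' + β')` with `gcd (α, α')` large. -/

set_option autoImplicit false

namespace Pool.Agent.Y911.RD

open Finset

/-- congruent integers in an interval -/
theorem card_mod {m : ℕ} (hm : 0 < m) {N : ℝ} (hN : 0 ≤ N) (E : Finset ℤ)
    (h1 : ∀ y ∈ E, |(y : ℝ)| ≤ N) (h2 : ∀ y ∈ E, ∀ y' ∈ E, (m : ℤ) ∣ y - y') :
    (E.card : ℝ) ≤ 1 + 2 * N / m := by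
  have hm0 : (0 : ℝ) < m := by exact_mod_cast hm
  have hmz : (0 : ℤ) < m := by exact_mod_cast hm
  rcases E.eq_empty_or_nonempty with h0 | hne
  · rw [h0, card_empty, Nat.cast_zero]; positivity
  · obtain ⟨y0, hy0, hmin⟩ := E.exists_min_image id hne
    have hmap : ∀ y ∈ E, ((y - y0) / m).toNat ∈ range (⌊2 * N / m⌋₊ + 1) := by
      intro y hy
      rw [mem_range, Nat.lt_succ_iff]
      refine Nat.le_floor ?_
      obtain ⟨k, hk⟩ := h2 y hy y0 hy0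
      have hk0 : 0 ≤ k := by
        have : y0 ≤ y := hmin y hy
        by_contra hcon
        have : (m : ℤ) * k < 0 := mul_neg_of_pos_of_neg hmz (not_le.1 hcon)
        omega
      rw [hk, Int.mul_ediv_cancel_left _ hmz.ne']
      have e1 : ((k.toNat : ℕ) : ℝ) = (k : ℝ) := by
        have : ((k.toNat : ℕ) : ℤ) = k := Int.toNat_of_nonneg hk0
        exact_mod_cast this
      rw [e1, le_div_iff₀ hm0]
      have e2 : (y : ℝ) - y0 = m * k := by exact_mod_cast hk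
      have e3 := (abs_le.1 (h1 y hy)).2
      have e4 := (abs_le.1 (h1 y0 hy0)).1
      linarith
    have hinj : Set.InjOn (fun y : ℤ => ((y - y0) / m).toNat) (E : Set ℤ) := by
      intro y hy y' hy' hyy
      obtain ⟨k, hk⟩ := h2 y hy y0 hy0
      obtain ⟨k', hk'⟩ := h2 y' hy' y0 hy0
      have hk0 : 0 ≤ k := by
        have : y0 ≤ y := hmin y hy
        by_contra hcon
        have : (m : ℤ) * k < 0 := mul_neg_of_pos_of_neg hmz (not_le.1 hcon)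
        omega
      have hk0' : 0 ≤ k' := by
        have : y0 ≤ y' := hmin y' hy'
        by_contra hcon
        have : (m : ℤ) * k' < 0 := mul_neg_of_pos_of_neg hmz (not_le.1 hcon)
        omega
      simp only [hk, hk', Int.mul_ediv_cancel_left _ hmz.ne'] at hyy
      have : k = k' := by omega
      rw [this] at hk
      omega
    have h3 := card_le_card_of_injOn _ hmap hinj
    rw [card_range] at h3
    calc (E.card : ℝ) ≤ ((⌊2 * N / m⌋₊ + 1 : ℕ) : ℝ) := by exact_mod_cast h3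
      _ ≤ 1 + 2 * N / m := by
          push_cast
          linarith [Nat.floor_le (show 0 ≤ 2 * N / m by positivity)]

theorem card_line_aux {ω ω' r s n : ℤ} {N W : ℝ} (hN : 0 ≤ N) (hω : ω ≠ 0) (hω' : ω' ≠ 0)
    (hr : 0 < r) (hrs : IsCoprime r s) (hW' : |(ω' : ℝ)| ≤ W) (E : Finset (ℤ × ℤ))
    (hE : ∀ p ∈ E, ω * r ^ 2 * p.1 - ω' * s ^ 2 * p.2 = n ∧ |(p.2 : ℝ)| ≤ N) :
    (E.card : ℝ) ≤ 1 + 2 * (N * W) / (r : ℝ) ^ 2 := by
  classical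
  have hW0 : 0 ≤ W := (abs_nonneg _).trans hW'
  have hinj : Set.InjOn (fun p : ℤ × ℤ => ω' * p.2) (E : Set (ℤ × ℤ)) := by
    intro p hp q hq hpq
    have h1 : p.2 = q.2 := mul_left_cancel₀ hω' hpq
    have h2 := (hE p hp).1
    have h3 := (hE q hq).1
    rw [h1] at h2
    have h4 : ω * r ^ 2 * p.1 = ω * r ^ 2 * q.1 := by linarith
    exact Prod.ext (mul_left_cancel₀ (mul_ne_zero hω (pow_ne_zero 2 hr.ne')) h4) h1
  have hm : 0 < (r ^ 2).toNat := by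
    have : 0 < r ^ 2 := by positivity
    omega
  have hmz : (((r ^ 2).toNat : ℕ) : ℤ) = r ^ 2 := Int.toNat_of_nonneg (by positivity)
  have hmr : (((r ^ 2).toNat : ℕ) : ℝ) = (r : ℝ) ^ 2 := by exact_mod_cast hmz
  have h1 := card_mod hm (N := N * W) (by positivity) (E.image fun p : ℤ × ℤ => ω' * p.2)
    (fun y hy => by
      obtain ⟨p, hp, rfl⟩ := mem_image.1 hy
      push_cast
      rw [abs_mul, mul_comm]
      exact mul_le_mul (hE p hp).2 hW' (abs_nonneg _) hN)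
    (fun y hy y' hy' => by
      obtain ⟨p, hp, rfl⟩ := mem_image.1 hy
      obtain ⟨q, hq, rfl⟩ := mem_image.1 hy'
      rw [hmz]
      have h2 := (hE p hp).1
      have h3 := (hE q hq).1
      have h4 : r ^ 2 ∣ s ^ 2 * (ω' * p.2 - ω' * q.2) :=
        ⟨ω * (p.1 - q.1), by linear_combination h3 - h2⟩
      exact ((hrs.pow (m := 2) (n := 2)).dvd_of_dvd_mul_left h4))
  rw [card_image_of_injOn hinj, hmr] at h1
  exact h1

/-- lattice points of a line -/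
theorem card_line {ω ω' r s n : ℤ} {N W : ℝ} (hN : 0 ≤ N) (hω : ω ≠ 0) (hω' : ω' ≠ 0)
    (hr : 0 < r) (hs : 0 < s) (hrs : IsCoprime r s) (hW : |(ω : ℝ)| ≤ W) (hW' : |(ω' : ℝ)| ≤ W)
    (E : Finset (ℤ × ℤ))
    (hE : ∀ p ∈ E, ω * r ^ 2 * p.1 - ω' * s ^ 2 * p.2 = n ∧ |(p.1 : ℝ)| ≤ N ∧ |(p.2 : ℝ)| ≤ N) :
    (E.card : ℝ) ≤ 1 + 2 * (N * W) / ((r : ℝ) * s) := by
  classical
  have hW0 : 0 ≤ W := (abs_nonneg _).trans hW'
  have hr0 : (0 : ℝ) < r := by exact_mod_cast hr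
  have hs0 : (0 : ℝ) < s := by exact_mod_cast hs
  rcases le_total s r with h | h
  · refine (card_line_aux hN hω hω' hr hrs hW' E fun p hp => ⟨(hE p hp).1, (hE p hp).2.2⟩).trans ?_
    have h1 : (s : ℝ) ≤ r := by exact_mod_cast h
    rw [pow_two]
    gcongr
  · have h2 := card_line_aux (n := -n) hN hω' hω hs hrs.symm hW (E.image Prod.swap)
      (fun p hp => by
        obtain ⟨q, hq, rfl⟩ := mem_image.1 hp
        refine ⟨?_, (hE q hq).2.1⟩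
        have := (hE q hq).1
        simp only [Prod.fst_swap, Prod.snd_swap]
        linarith)
    rw [card_image_of_injective _ Prod.swap_injective] at h2
    refine h2.trans ?_
    have h1 : (r : ℝ) ≤ s := by exact_mod_cast h
    rw [pow_two]
    gcongr

/-- the integer divisors -/
theorem card_dvd {Δ : ℤ} (hΔ : Δ ≠ 0) (E : Finset ℤ) (hE : ∀ u ∈ E, u ∣ Δ) :
    E.card ≤ 2 * Δ.natAbs.divisors.card := by
  classical
  have hsub : E ⊆ (Δ.natAbs.divisors).image (fun d : ℕ => (d : ℤ)) ∪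
      (Δ.natAbs.divisors).image (fun d : ℕ => -(d : ℤ)) := by
    intro u hu
    have h1 : u.natAbs ∈ Δ.natAbs.divisors :=
      Nat.mem_divisors.2 ⟨Int.natAbs_dvd_natAbs.2 (hE u hu), Int.natAbs_ne_zero.2 hΔ⟩
    rw [mem_union, mem_image, mem_image]
    rcases Int.natAbs_eq u with h | h
    · exact Or.inl ⟨_, h1, h.symm⟩
    · exact Or.inr ⟨_, h1, h.symm⟩
  refine (card_le_card hsub).trans ((card_union_le _ _).trans ?_)
  have h1 := card_image_le (s := Δ.natAbs.divisors) (f := fun d : ℕ => (d : ℤ))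
  have h2 := card_image_le (s := Δ.natAbs.divisors) (f := fun d : ℕ => -(d : ℤ))
  omega

/-- **Solutions with given coefficients and given `r, s, h`.** -/
theorem card_fib {ω ω' r s h : ℤ} {B W D : ℝ} (hB : 0 ≤ B) (hr : 0 < r) (hs : 0 < s)
    (hh : 0 < h) (hW : |(ω : ℝ)| ≤ W) (hW' : |(ω' : ℝ)| ≤ W)
    (hD : ω * ω' * r * s * (ω * r ^ 3 - ω' * s ^ 3) ≠ 0 →
      ((ω * ω' * r * s * (ω * r ^ 3 - ω' * s ^ 3)).natAbs.divisors.card : ℝ) ≤ D)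
    (hD0 : 0 ≤ D) (E : Finset (ℤ × ℤ × ℤ))
    (hE : ∀ p ∈ E, Sol ω ω' r s p.1 h p.2.1 p.2.2 ∧ |(h : ℝ) * (p.2.1 : ℝ)| ≤ B ∧
      |(h : ℝ) * (p.2.2 : ℝ)| ≤ B ∧ ω * r ^ 2 * p.2.1 - ω' * s ^ 2 * p.2.2 ≠ 0 ∧
      ω * r ^ 3 - ω' * s ^ 3 ≠ 0) :
    (E.card : ℝ) ≤ 2 * D * (1 + 2 * (B / h * W) / ((r : ℝ) * s)) := by
  classical
  have hW0 : 0 ≤ W := (abs_nonneg _).trans hW'
  have hh0 : (0 : ℝ) < h := by exact_mod_cast hh
  have hr0 : (0 : ℝ) < r := by exact_mod_cast hr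
  have hs0 : (0 : ℝ) < s := by exact_mod_cast hs
  rcases E.eq_empty_or_nonempty with h0 | ⟨p0, hp0⟩
  · rw [h0, card_empty, Nat.cast_zero]
    positivity
  obtain ⟨S, -, -, -, hnd⟩ := hE p0 hp0
  have hΔ : ω * ω' * r * s * (ω * r ^ 3 - ω' * s ^ 3) ≠ 0 :=
    mul_ne_zero (mul_ne_zero (mul_ne_zero (mul_ne_zero S.ω0 S.ω'0) S.r0.ne') S.s0.ne') hnd
  obtain ⟨V, hV⟩ : ∃ V : ℝ, V = 1 + 2 * (B / h * W) / ((r : ℝ) * s) := ⟨_, rfl⟩
  have hV0 : 0 ≤ V := by rw [hV]; positivity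
  rw [← hV]
  have hfib : ∀ u ∈ E.image (fun p : ℤ × ℤ × ℤ =>
      (ω * r ^ 2 * p.2.1 - ω' * s ^ 2 * p.2.2) / h),
      (E.filter fun p : ℤ × ℤ × ℤ =>
        (ω * r ^ 2 * p.2.1 - ω' * s ^ 2 * p.2.2) / h = u).card ≤ ⌊V⌋₊ := by
    intro u _
    refine Nat.le_floor ?_
    obtain ⟨Eu, hEu⟩ : ∃ Eu, Eu = (E.filter fun p : ℤ × ℤ × ℤ =>
        (ω * r ^ 2 * p.2.1 - ω' * s ^ 2 * p.2.2) / h = u) := ⟨_, rfl⟩
    rw [← hEu]
    have hmem : ∀ p ∈ Eu, p ∈ E ∧ ω * r ^ 2 * p.2.1 - ω' * s ^ 2 * p.2.2 = h * u ∧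
        ω' * s * p.2.2 ^ 2 - ω * r * p.2.1 ^ 2 = p.1 * u ∧ u ≠ 0 := by
      intro p hp
      rw [hEu, mem_filter] at hp
      obtain ⟨hp1, hp2⟩ := hp
      obtain ⟨Sp, -, -, hnz, -⟩ := hE p hp1
      obtain ⟨v, hv1, hv2⟩ := Sp.exists_u
      have hvu : v = u := by
        rw [← hp2, hv1, Int.mul_ediv_cancel_left _ Sp.h0.ne']
      rw [hvu] at hv1 hv2
      refine ⟨hp1, hv1, hv2, ?_⟩
      intro h0
      rw [h0, mul_zero] at hv1
      exact hnz hv1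
    have hinj : Set.InjOn (fun p : ℤ × ℤ × ℤ => p.2) (Eu : Set (ℤ × ℤ × ℤ)) := by
      intro p hp q hq hpq
      obtain ⟨-, -, hp3, hu0⟩ := hmem p hp
      obtain ⟨-, -, hq3, -⟩ := hmem q hq
      simp only at hpq
      rw [hpq] at hp3
      have : p.1 * u = q.1 * u := by rw [← hp3, ← hq3]
      exact Prod.ext (mul_right_cancel₀ hu0 this) hpq
    have h1 := card_line (n := h * u) (N := B / h) (W := W) (by positivity) S.ω0 S.ω'0 S.r0 S.s0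
      S.rs hW hW' (Eu.image fun p : ℤ × ℤ × ℤ => p.2) (fun q hq => by
        obtain ⟨p, hp, rfl⟩ := mem_image.1 hq
        obtain ⟨hp1, hp2, -, -⟩ := hmem p hp
        obtain ⟨-, c1, c2, -, -⟩ := hE p hp1
        refine ⟨hp2, ?_, ?_⟩
        · rw [abs_mul, abs_of_pos hh0] at c1
          rw [le_div_iff₀ hh0, mul_comm]
          exact c1
        · rw [abs_mul, abs_of_pos hh0] at c2
          rw [le_div_iff₀ hh0, mul_comm]
          exact c2)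
    rw [card_image_of_injOn hinj] at h1
    rw [hV]
    exact h1
  have h2 := card_le_mul_card_image E ⌊V⌋₊ hfib
  have h3 := card_dvd hΔ (E.image (fun p : ℤ × ℤ × ℤ =>
      (ω * r ^ 2 * p.2.1 - ω' * s ^ 2 * p.2.2) / h)) (fun u hu => by
    obtain ⟨p, hp, rfl⟩ := mem_image.1 hu
    obtain ⟨Sp, -, -, -, -⟩ := hE p hp
    obtain ⟨v, hv1, hv2⟩ := Sp.exists_u
    rw [hv1, Int.mul_ediv_cancel_left _ Sp.h0.ne']
    exact Sp.dvd hv1 hv2)
  have h4 : (((E.image (fun p : ℤ × ℤ × ℤ =>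
      (ω * r ^ 2 * p.2.1 - ω' * s ^ 2 * p.2.2) / h)).card : ℕ) : ℝ) ≤ 2 * D := by
    calc _ ≤ ((2 * (ω * ω' * r * s * (ω * r ^ 3 - ω' * s ^ 3)).natAbs.divisors.card : ℕ) : ℝ) := by
          exact_mod_cast h3
      _ ≤ 2 * D := by
          push_cast
          linarith [hD hΔ]
  calc (E.card : ℝ) ≤ ((⌊V⌋₊ * (E.image (fun p : ℤ × ℤ × ℤ =>
      (ω * r ^ 2 * p.2.1 - ω' * s ^ 2 * p.2.2) / h)).card : ℕ) : ℝ) := by exact_mod_cast h2
    _ = (⌊V⌋₊ : ℝ) * (((E.image (fun p : ℤ × ℤ × ℤ =>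
      (ω * r ^ 2 * p.2.1 - ω' * s ^ 2 * p.2.2) / h)).card : ℕ) : ℝ) := by push_cast; ring
    _ ≤ V * (2 * D) := mul_le_mul (Nat.floor_le hV0) h4 (Nat.cast_nonneg _) hV0
    _ = 2 * D * V := by ring

theorem sum_inv (n : ℕ) : ∑ r ∈ Icc 1 n, (1 : ℝ) / (r : ℝ) ≤ 1 + Real.log n := by
  have h1 := harmonic_le_one_add_log n
  rw [harmonic_eq_sum_Icc] at h1
  push_cast at h1
  simpa [one_div] using h1

/-- **Solutions with bounded coefficients and large common divisor `g`.** -/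
theorem count {B W Z : ℕ} {D : ℝ} (hZB : Z ≤ B) (hB1 : 1 ≤ B) (hD0 : 0 ≤ D)
    (hD : ∀ n : ℕ, 0 < n → n ≤ 2 * W ^ 3 * Z ^ 5 → (n.divisors.card : ℝ) ≤ D)
    (E : Finset ((ℤ × ℤ × ℕ × ℕ × ℕ) × (ℤ × ℤ × ℤ)))
    (hE : ∀ e ∈ E, Sol e.1.1 e.1.2.1 e.1.2.2.1 e.1.2.2.2.1 e.2.1 e.1.2.2.2.2 e.2.2.1 e.2.2.2 ∧
      |e.1.1| ≤ W ∧ |e.1.2.1| ≤ W ∧ e.1.2.2.1 ≤ Z ∧ e.1.2.2.2.1 ≤ Z ∧
      e.1.2.2.2.2 * e.1.2.2.1 ≤ B ∧
      |(e.1.2.2.2.2 : ℝ) * (e.2.2.1 : ℝ)| ≤ B ∧ |(e.1.2.2.2.2 : ℝ) * (e.2.2.2 : ℝ)| ≤ B ∧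
      e.1.1 * (e.1.2.2.1 : ℤ) ^ 2 * e.2.2.1 - e.1.2.1 * (e.1.2.2.2.1 : ℤ) ^ 2 * e.2.2.2 ≠ 0 ∧
      e.1.1 * (e.1.2.2.1 : ℤ) ^ 3 - e.1.2.1 * (e.1.2.2.2.1 : ℤ) ^ 3 ≠ 0) :
    (E.card : ℝ) ≤ (2 * W + 1) ^ 2 * (2 * D * ((B : ℝ) * Z + 2 * B * W) *
      (1 + Real.log B) ^ 3) := by
  classical
  obtain ⟨t, ht⟩ : ∃ t : Finset (ℤ × ℤ × ℕ × ℕ × ℕ), t = Icc (-(W : ℤ)) W ×ˢ
    (Icc (-(W : ℤ)) W ×ˢ (Icc 1 Z ×ˢ (Icc 1 Z ×ˢ Icc 1 B))) := ⟨_, rfl⟩
  have hmt : ∀ e ∈ E, e.1 ∈ t := by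
    intro e he
    obtain ⟨S, h1, h2, h3, h4, h5, -⟩ := hE e he
    have hr := S.r0
    have hs := S.s0
    have hh := S.h0
    rw [abs_le] at h1 h2
    have hr' : 1 ≤ e.1.2.2.1 := by omega
    have h6 : e.1.2.2.2.2 ≤ B := (Nat.le_mul_of_pos_right _ hr').trans h5
    rw [ht, mem_product, mem_product, mem_product, mem_product, mem_Icc, mem_Icc, mem_Icc,
      mem_Icc, mem_Icc]
    refine ⟨h1, h2, ⟨hr', h3⟩, ⟨by omega, h4⟩, by omega, h6⟩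
  have hcard := card_eq_sum_card_fiberwise (s := E) (t := t) (f := Prod.fst) hmt
  obtain ⟨Λ, hΛ⟩ : ∃ Λ : ℝ, Λ = 1 + Real.log B := ⟨_, rfl⟩
  have hB1' : (1 : ℝ) ≤ B := by exact_mod_cast hB1
  have hΛ1 : 1 ≤ Λ := by rw [hΛ]; linarith [Real.log_nonneg hB1']
  have hfib : ∀ b ∈ t, ((E.filter fun e => e.1 = b).card : ℝ) ≤
      2 * D * ((1 / (b.2.2.1 : ℝ)) * (((B : ℝ) + 2 * B * W * (1 / (b.2.2.2.1 : ℝ))) *
        (1 / (b.2.2.2.2 : ℝ)))) := by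
    intro b hb
    rcases (E.filter fun e => e.1 = b).eq_empty_or_nonempty with h0 | ⟨e0, he0⟩
    · rw [h0, card_empty, Nat.cast_zero]
      positivity
    rw [mem_filter] at he0
    obtain ⟨he0, hb0⟩ := he0
    obtain ⟨S, h1, h2, h3, h4, h5, -⟩ := hE e0 he0
    rw [hb0] at S h1 h2 h3 h4 h5
    have hinj : Set.InjOn (fun e : (ℤ × ℤ × ℕ × ℕ × ℕ) × (ℤ × ℤ × ℤ) => e.2)
        ((E.filter fun e => e.1 = b : Finset _) : Set _) := by
      intro e he e' he' hee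
      rw [mem_coe, mem_filter] at he he'
      exact Prod.ext (he.2.trans he'.2.symm) hee
    have h6 := card_fib (B := (B : ℝ)) (W := (W : ℝ)) (D := D) (Nat.cast_nonneg _) S.r0 S.s0 S.h0
      (by
        have : ((|b.1| : ℤ) : ℝ) ≤ W := by exact_mod_cast h1
        rwa [Int.cast_abs] at this)
      (by
        have : ((|b.2.1| : ℤ) : ℝ) ≤ W := by exact_mod_cast h2
        rwa [Int.cast_abs] at this)
      (fun hne => by
        refine hD _ (Int.natAbs_pos.2 hne) ?_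
        have e1 : b.1.natAbs ≤ W := by rw [abs_le] at h1; omega
        have e2 : b.2.1.natAbs ≤ W := by rw [abs_le] at h2; omega
        have e3 : (b.1 * (b.2.2.1 : ℤ) ^ 3 - b.2.1 * (b.2.2.2.1 : ℤ) ^ 3).natAbs ≤
            W * Z ^ 3 + W * Z ^ 3 := by
          refine (Int.natAbs_sub_le _ _).trans ?_
          rw [Int.natAbs_mul, Int.natAbs_mul, Int.natAbs_pow, Int.natAbs_pow, Int.natAbs_natCast,
            Int.natAbs_natCast]
          gcongr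
        rw [Int.natAbs_mul, Int.natAbs_mul, Int.natAbs_mul, Int.natAbs_mul, Int.natAbs_natCast,
          Int.natAbs_natCast]
        calc b.1.natAbs * b.2.1.natAbs * b.2.2.1 * b.2.2.2.1 *
            (b.1 * (b.2.2.1 : ℤ) ^ 3 - b.2.1 * (b.2.2.2.1 : ℤ) ^ 3).natAbs ≤
            W * W * Z * Z * (W * Z ^ 3 + W * Z ^ 3) := by gcongr
          _ = 2 * W ^ 3 * Z ^ 5 := by ring)
      hD0 ((E.filter fun e => e.1 = b).image fun e => e.2)
      (fun p hp => by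
        obtain ⟨e, he, rfl⟩ := mem_image.1 hp
        rw [mem_filter] at he
        obtain ⟨he1, he2⟩ := he
        obtain ⟨Se, -, -, -, -, -, c1, c2, c3, c4⟩ := hE e he1
        rw [he2] at Se c1 c2 c3 c4
        refine ⟨Se, ?_, ?_, c3, c4⟩
        · push_cast
          exact c1
        · push_cast
          exact c2)
    rw [card_image_of_injOn hinj] at h6
    refine h6.trans ?_
    rw [mul_assoc, mul_assoc]
    refine mul_le_mul_of_nonneg_left (mul_le_mul_of_nonneg_left ?_ hD0) (by norm_num)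
    have hr0 : (0 : ℝ) < (b.2.2.1 : ℝ) := by exact_mod_cast S.r0
    have hs0 : (0 : ℝ) < (b.2.2.2.1 : ℝ) := by exact_mod_cast S.s0
    have hh0 : (0 : ℝ) < (b.2.2.2.2 : ℝ) := by exact_mod_cast S.h0
    have h7 : (b.2.2.2.2 : ℝ) * b.2.2.1 ≤ B := by exact_mod_cast h5
    have h8 : (1 : ℝ) ≤ B / ((b.2.2.2.2 : ℝ) * b.2.2.1) := by
      rw [le_div_iff₀ (by positivity), one_mul]
      exact h7
    push_cast
    calc 1 + 2 * ((B : ℝ) / b.2.2.2.2 * W) / ((b.2.2.1 : ℝ) * b.2.2.2.1) ≤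
        B / ((b.2.2.2.2 : ℝ) * b.2.2.1) +
          2 * ((B : ℝ) / b.2.2.2.2 * W) / ((b.2.2.1 : ℝ) * b.2.2.2.1) := by linarith
      _ = _ := by field_simp
  have hsum : (E.card : ℝ) ≤ ∑ b ∈ t, 2 * D * ((1 / (b.2.2.1 : ℝ)) *
      (((B : ℝ) + 2 * B * W * (1 / (b.2.2.2.1 : ℝ))) * (1 / (b.2.2.2.2 : ℝ)))) := by
    rw [hcard]
    push_cast
    exact sum_le_sum hfib
  refine hsum.trans ?_
  obtain ⟨HZ, hHZ⟩ : ∃ H : ℝ, H = ∑ r ∈ Icc 1 Z, (1 : ℝ) / (r : ℝ) := ⟨_, rfl⟩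
  obtain ⟨HB, hHB⟩ : ∃ H : ℝ, H = ∑ r ∈ Icc 1 B, (1 : ℝ) / (r : ℝ) := ⟨_, rfl⟩
  have hHB1 : HB ≤ Λ := by rw [hHB, hΛ]; exact sum_inv B
  have hHZ0 : 0 ≤ HZ := by rw [hHZ]; exact sum_nonneg fun i _ => by positivity
  have hHB0 : 0 ≤ HB := by rw [hHB]; exact sum_nonneg fun i _ => by positivity
  have hHZ1 : HZ ≤ Λ := by
    refine le_trans ?_ hHB1
    rw [hHZ, hHB]
    exact sum_le_sum_of_subset_of_nonneg (Icc_subset_Icc_right hZB) fun i _ _ => by positivity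
  have hsum2 : ∑ b ∈ t, 2 * D * ((1 / (b.2.2.1 : ℝ)) *
      (((B : ℝ) + 2 * B * W * (1 / (b.2.2.2.1 : ℝ))) * (1 / (b.2.2.2.2 : ℝ)))) =
      (2 * W + 1) ^ 2 * (2 * D * (HZ * (((B : ℝ) * Z + 2 * B * W * HZ) * HB))) := by
    rw [ht, sum_product]
    simp only
    rw [sum_const, sum_product]
    simp only
    rw [sum_const, sum_product]
    simp only
    have e1 : ∀ r ∈ Icc 1 Z, ∑ q ∈ Icc 1 Z ×ˢ Icc 1 B, 2 * D * ((1 / (r : ℝ)) *
        (((B : ℝ) + 2 * B * W * (1 / (q.1 : ℝ))) * (1 / (q.2 : ℝ)))) =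
        2 * D * ((1 / (r : ℝ)) * (((B : ℝ) * Z + 2 * B * W * HZ) * HB)) := by
      intro r _
      rw [← mul_sum, ← mul_sum, sum_product]
      congr 2
      simp only
      have e2 : ∀ s ∈ Icc 1 Z, ∑ h ∈ Icc 1 B, ((B : ℝ) + 2 * B * W * (1 / (s : ℝ))) *
          (1 / (h : ℝ)) = ((B : ℝ) + 2 * B * W * (1 / (s : ℝ))) * HB := by
        intro s _
        rw [← mul_sum, hHB]
      rw [sum_congr rfl e2, ← sum_mul, sum_add_distrib, ← mul_sum, ← hHZ, sum_const,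
        Nat.card_Icc, nsmul_eq_mul]
      congr 2
      rw [Nat.add_sub_cancel, mul_comm]
    rw [sum_congr rfl e1, ← mul_sum, ← sum_mul, ← hHZ, Int.card_Icc, nsmul_eq_mul, nsmul_eq_mul]
    have e3 : ((((W : ℤ) + 1 - -(W : ℤ)).toNat : ℕ) : ℝ) = 2 * W + 1 := by
      have : (((W : ℤ) + 1 - -(W : ℤ)).toNat : ℕ) = 2 * W + 1 := by omega
      rw [this]
      push_cast
      ring
    rw [e3]
    ring
  rw [hsum2, ← hΛ]
  refine mul_le_mul_of_nonneg_left ?_ (by positivity)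
  rw [mul_assoc (2 * D)]
  refine mul_le_mul_of_nonneg_left ?_ (by positivity)
  have hBW : 0 ≤ 2 * (B : ℝ) * W := by positivity
  have hBZ : 0 ≤ (B : ℝ) * Z := by positivity
  have k1 : (B : ℝ) * Z + 2 * B * W * HZ ≤ ((B : ℝ) * Z + 2 * B * W) * Λ := by
    have k2 : 2 * (B : ℝ) * W * HZ ≤ 2 * B * W * Λ := mul_le_mul_of_nonneg_left hHZ1 hBW
    have k3 : (B : ℝ) * Z * 1 ≤ B * Z * Λ := mul_le_mul_of_nonneg_left hΛ1 hBZ
    linarith
  calc HZ * (((B : ℝ) * Z + 2 * B * W * HZ) * HB) ≤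
      Λ * ((((B : ℝ) * Z + 2 * B * W) * Λ) * Λ) := by
        refine mul_le_mul hHZ1 (mul_le_mul k1 hHB1 hHB0 (by positivity)) ?_ (by positivity)
        positivity
    _ = _ := by ring

end Pool.Agent.Y911.RD
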