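import Pool.Agent.Y911.RD.Num
import Pool.Agent.Y911.AA.Main
import Pool.Agent.TH498.AR.Tail

/-! Almost every abc triple is determined by its radical. -/

set_option autoImplicit false

namespace Pool.Agent.Y911.RD

open Filter Topology Finset Pool.Agent.Results.MP_1ea25c_nt.AlmostAllTriples Pool.Agent.TH498.AR
open Pool.Agent.Y911.AA (viol)

/-- the triples which are not good -/
def bad (X : ℝ) : Set (ℕ × ℕ) :=
  {p | p ∈ triples X ∧ ((rad3 p : ℝ) ≤ X ^ (9 / 10 : ℝ) ∨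
    X ^ (1 / 3 + 1 / 240 : ℝ) ≤ ((p.1 + p.2 : ℕ) : ℝ) ∨
    (((p.1 + p.2 : ℕ) : ℝ) ≤ X ^ (1 / 3 + 1 / 240 : ℝ) ∧ X ^ (1 / 240 : ℝ) ≤ (psi3 ∅ p : ℝ)))}

theorem bad_le : ∃ ν C : ℝ, 0 < ν ∧ ν ≤ 1 / 15 ∧ 0 < C ∧ ∀ X : ℝ, 1 ≤ X →
    ((bad X).ncard : ℝ) ≤ C * X ^ (2 / 3 - ν) := by
  classical
  obtain ⟨C1, hC1, h1⟩ := Pool.Agent.TH867.SB.all_heights (1 / 100) (by norm_num)
  obtain ⟨ν2, C2, hν2, -, hC2, h2⟩ := Pool.Agent.Y911.AA.saving (ε := 1 / 240) (by norm_num)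
  obtain ⟨C3, hC3, h3⟩ := tail (1 / 3 + 1 / 240)
  obtain ⟨ν, hν⟩ : ∃ ν : ℝ, ν = min ν2 (1 / 2400) := ⟨_, rfl⟩
  have hν0 : 0 < ν := by rw [hν]; exact lt_min hν2 (by norm_num)
  have v2 : ν ≤ ν2 := by rw [hν]; exact min_le_left _ _
  have v3 : ν ≤ 1 / 2400 := by rw [hν]; exact min_le_right _ _
  refine ⟨ν, C1 + C2 + C3 * 2, hν0, by linarith, by positivity, fun X hX => ?_⟩
  have hX0 : 0 < X := by linarith
  have hfin : (bad X).Finite := (Pool.Agent.Y911.AA.triples_finite' X).subset fun p hp => hp.1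
  rw [Set.ncard_eq_toFinset_card _ hfin]
  obtain ⟨F, hF⟩ : ∃ F, F = hfin.toFinset := ⟨_, rfl⟩
  rw [← hF]
  have hFm : ∀ p ∈ F, p ∈ bad X := fun p hp => by
    rw [hF, Set.Finite.mem_toFinset] at hp
    exact hp
  obtain ⟨F1, hF1⟩ : ∃ F1, F1 = F.filter fun p : ℕ × ℕ => (rad3 p : ℝ) ≤ X ^ (9 / 10 : ℝ) :=
    ⟨_, rfl⟩
  obtain ⟨F2, hF2⟩ : ∃ F2, F2 = F.filter fun p : ℕ × ℕ =>
    X ^ (1 / 3 + 1 / 240 : ℝ) ≤ ((p.1 + p.2 : ℕ) : ℝ) := ⟨_, rfl⟩
  obtain ⟨F3, hF3⟩ : ∃ F3, F3 = F.filter fun p : ℕ × ℕ =>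
    (((p.1 + p.2 : ℕ) : ℝ) ≤ X ^ (1 / 3 + 1 / 240 : ℝ) ∧ X ^ (1 / 240 : ℝ) ≤ (psi3 ∅ p : ℝ)) :=
    ⟨_, rfl⟩
  have hcov : F ⊆ F1 ∪ F2 ∪ F3 := by
    intro p hp
    simp only [Finset.mem_union]
    rcases (hFm p hp).2 with h | h | h
    · exact Or.inl (Or.inl (by rw [hF1]; exact Finset.mem_filter.2 ⟨hp, h⟩))
    · exact Or.inl (Or.inr (by rw [hF2]; exact Finset.mem_filter.2 ⟨hp, h⟩))
    · exact Or.inr (by rw [hF3]; exact Finset.mem_filter.2 ⟨hp, h⟩)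
  have hcard : (F.card : ℝ) ≤ F1.card + F2.card + F3.card := by
    have a0 := Finset.card_le_card hcov
    have a1 := Finset.card_union_le (F1 ∪ F2) F3
    have a2 := Finset.card_union_le F1 F2
    have : F.card ≤ F1.card + F2.card + F3.card := by omega
    exact_mod_cast this
  have b1 : (F1.card : ℝ) ≤ C1 * X ^ (2 / 3 - ν) := by
    have h5 := h1 (X ^ (9 / 10 : ℝ)) (Real.one_le_rpow hX (by norm_num)) (F1.image toT)
      (fun t ht => by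
        obtain ⟨p, hp, rfl⟩ := Finset.mem_image.1 ht
        rw [hF1, Finset.mem_filter] at hp
        have h6 := toT_tr (hFm p hp.1).1
        refine ⟨h6.1, ?_⟩
        rw [h6.2]
        exact Real.log_le_log (by exact_mod_cast rad3_pos p) hp.2)
    rw [Finset.card_image_of_injective _ toT_inj] at h5
    refine h5.trans (mul_le_mul_of_nonneg_left ?_ hC1.le)
    rw [← Real.rpow_mul hX0.le]
    exact Real.rpow_le_rpow_of_exponent_le hX (by linarith)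
  have b2 : (F2.card : ℝ) ≤ C2 * X ^ (2 / 3 - ν) := by
    have hsub : (F2 : Set (ℕ × ℕ)) ⊆ viol (1 / 3 + 1 / 240) X := by
      intro p hp
      rw [Finset.mem_coe, hF2, Finset.mem_filter] at hp
      refine ⟨(hFm p hp.1).1, le_trans ?_ hp.2⟩
      exact Real.rpow_le_rpow (Nat.cast_nonneg _) (hFm p hp.1).1.2.2.2 (by norm_num)
    have h5 := Set.ncard_le_ncard hsub
      ((Pool.Agent.Y911.AA.triples_finite' X).subset fun p hp => hp.1)
    rw [Set.ncard_coe_finset] at h5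
    calc (F2.card : ℝ) ≤ ((viol (1 / 3 + 1 / 240) X).ncard : ℝ) := by exact_mod_cast h5
      _ ≤ C2 * X ^ (2 / 3 - ν2) := h2 X hX
      _ ≤ _ := by
          refine mul_le_mul_of_nonneg_left ?_ hC2.le
          exact Real.rpow_le_rpow_of_exponent_le hX (by linarith)
  have b3 : (F3.card : ℝ) ≤ C3 * 2 * X ^ (2 / 3 - ν) := by
    have h5 := h3 X (X ^ (1 / 240 : ℝ)) hX (Real.one_le_rpow hX (by norm_num)) F3 (fun p hp => by
      rw [hF3, Finset.mem_filter] at hp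
      have ht := (hFm p hp.1).1
      refine ⟨ht.1, ht.2.1, ht.2.2.1, ?_, hp.2.1, hp.2.2⟩
      rw [Pool.Agent.Y911.AB.radP_rad3]
      exact ht.2.2.2)
    refine h5.trans ?_
    rw [mul_assoc]
    refine mul_le_mul_of_nonneg_left ?_ hC3.le
    have e1 : (X ^ (1 / 240 : ℝ)) ^ (-(1 / 10) : ℝ) * X ^ ((2 : ℝ) / 3) ≤ X ^ (2 / 3 - ν) := by
      rw [← Real.rpow_mul hX0.le, ← Real.rpow_add hX0]
      exact Real.rpow_le_rpow_of_exponent_le hX (by linarith)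
    have e2 : X ^ (2 / 3 - 1 / 480 : ℝ) ≤ X ^ (2 / 3 - ν) :=
      Real.rpow_le_rpow_of_exponent_le hX (by linarith)
    linarith
  calc (F.card : ℝ) ≤ F1.card + F2.card + F3.card := hcard
    _ ≤ C1 * X ^ (2 / 3 - ν) + C2 * X ^ (2 / 3 - ν) + C3 * 2 * X ^ (2 / 3 - ν) := by linarith
    _ = _ := by ring

/-- the triples which share their radical with another triple -/
def shared (X : ℝ) : Set (ℕ × ℕ) :=
  {p | p ∈ triples X ∧ ∃ q, q ∈ triples X ∧ q ≠ p ∧ rad3 q = rad3 p}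

theorem good_of {X : ℝ} {p : ℕ × ℕ} (hp : p ∈ triples X) (hb : p ∉ bad X) :
    Good ⌊X ^ (1 / 3 + 1 / 240 : ℝ)⌋₊ ⌊X ^ (1 / 240 : ℝ)⌋₊ p ∧ X ^ (9 / 10 : ℝ) ≤ (rad3 p : ℝ) := by
  have h1 : ¬ (rad3 p : ℝ) ≤ X ^ (9 / 10 : ℝ) := fun h => hb ⟨hp, Or.inl h⟩
  have h2 : ¬ X ^ (1 / 3 + 1 / 240 : ℝ) ≤ ((p.1 + p.2 : ℕ) : ℝ) :=
    fun h => hb ⟨hp, Or.inr (Or.inl h)⟩
  have h3 : ¬ X ^ (1 / 240 : ℝ) ≤ (psi3 ∅ p : ℝ) :=
    fun h => hb ⟨hp, Or.inr (Or.inr ⟨(not_le.1 h2).le, h⟩)⟩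
  refine ⟨⟨hp.1, hp.2.1, hp.2.2.1, ?_, ?_⟩, (not_le.1 h1).le⟩
  · exact Nat.le_floor (not_le.1 h2).le
  · exact Nat.le_floor (not_le.1 h3).le

/-- **Few triples share their radical with another one.** -/
theorem shared_le : ∃ ν C : ℝ, 0 < ν ∧ ν ≤ 1 / 15 ∧ 0 < C ∧ ∀ X : ℝ, 1 ≤ X →
    ((shared X).ncard : ℝ) ≤ C * X ^ (2 / 3 - ν) := by
  classical
  obtain ⟨ν, C1, hν0, hν1, hC1, h1⟩ := bad_le
  obtain ⟨C2, hC2, h2⟩ := pairs_count
  refine ⟨ν, 2 * C1 + C2, hν0, hν1, by positivity, fun X hX => ?_⟩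
  have hfinT := Pool.Agent.Y911.AA.triples_finite' X
  obtain ⟨T, hT⟩ : ∃ T, T = hfinT.toFinset := ⟨_, rfl⟩
  have hTm : ∀ p, p ∈ T ↔ p ∈ triples X := fun p => by rw [hT, Set.Finite.mem_toFinset]
  obtain ⟨Bd, hBd⟩ : ∃ Bd, Bd = T.filter fun p => p ∈ bad X := ⟨_, rfl⟩
  have hBdc : (Bd.card : ℝ) ≤ C1 * X ^ (2 / 3 - ν) := by
    refine le_trans (le_of_eq ?_) (h1 X hX)
    rw [← Set.ncard_coe_finset]
    congr 2
    ext p
    rw [Finset.mem_coe, hBd, Finset.mem_filter, hTm]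
    exact ⟨fun h => h.2, fun h => ⟨h.1, h⟩⟩
  obtain ⟨Gd, hGd⟩ : ∃ Gd, Gd = T.filter fun p => p ∉ bad X := ⟨_, rfl⟩
  obtain ⟨Q, hQ⟩ : ∃ Q, Q = (Gd ×ˢ Gd).filter fun z : (ℕ × ℕ) × (ℕ × ℕ) =>
    z.1 ≠ z.2 ∧ rad3 z.1 = rad3 z.2 := ⟨_, rfl⟩
  have hQc : (Q.card : ℝ) ≤ C2 * X ^ (2 / 3 - ν) := by
    have h3 := h2 X hX Q (fun z hz => by
      rw [hQ, Finset.mem_filter, Finset.mem_product, hGd, Finset.mem_filter, Finset.mem_filter,
        hTm, hTm] at hz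
      obtain ⟨⟨⟨a1, a2⟩, a3, a4⟩, a5, a6⟩ := hz
      obtain ⟨g1, g2⟩ := good_of a1 a2
      obtain ⟨g3, -⟩ := good_of a3 a4
      exact ⟨g1, g3, a5, a6, g2⟩)
    refine h3.trans (mul_le_mul_of_nonneg_left ?_ hC2.le)
    exact Real.rpow_le_rpow_of_exponent_le hX (by linarith)
  -- the three parts
  obtain ⟨S1, hS1⟩ : ∃ S1, S1 = Gd.filter fun p => ∃ q ∈ Gd, p ≠ q ∧ rad3 p = rad3 q := ⟨_, rfl⟩
  obtain ⟨S2, hS2⟩ : ∃ S2, S2 = Gd.filter fun p => (∀ q ∈ Gd, rad3 p = rad3 q → p = q) ∧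
    ∃ q ∈ Bd, rad3 p = rad3 q := ⟨_, rfl⟩
  have hS1c : S1.card ≤ Q.card := by
    have hex : ∀ p : ℕ × ℕ, ∃ q : ℕ × ℕ, p ∈ S1 → q ∈ Gd ∧ p ≠ q ∧ rad3 p = rad3 q := by
      intro p
      by_cases hp : p ∈ S1
      · have hp' := hp
        rw [hS1, Finset.mem_filter] at hp'
        obtain ⟨q, hq1, hq2, hq3⟩ := hp'.2
        exact ⟨q, fun _ => ⟨hq1, hq2, hq3⟩⟩
      · exact ⟨p, fun h => absurd h hp⟩
    choose f hf using hex
    refine Finset.card_le_card_of_injOn (fun p => (p, f p)) (fun p hp => ?_) (fun p _ p' _ h => ?_)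
    · have hp' : p ∈ Gd := by
        rw [Finset.mem_coe, hS1, Finset.mem_filter] at hp
        exact hp.1
      obtain ⟨a1, a2, a3⟩ := hf p hp
      rw [Finset.mem_coe, hQ, Finset.mem_filter, Finset.mem_product]
      exact ⟨⟨hp', a1⟩, a2, a3⟩
    · exact (Prod.ext_iff.1 h).1
  have hS2c : S2.card ≤ Bd.card := by
    have hex : ∀ p : ℕ × ℕ, ∃ q : ℕ × ℕ, p ∈ S2 → q ∈ Bd ∧ rad3 p = rad3 q := by
      intro p
      by_cases hp : p ∈ S2
      · have hp' := hp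
        rw [hS2, Finset.mem_filter] at hp'
        obtain ⟨q, hq1, hq2⟩ := hp'.2.2
        exact ⟨q, fun _ => ⟨hq1, hq2⟩⟩
      · exact ⟨p, fun h => absurd h hp⟩
    choose f hf using hex
    refine Finset.card_le_card_of_injOn f (fun p hp => (hf p hp).1) (fun p hp p' hp' h => ?_)
    have a1 := (hf p hp).2
    have a2 := (hf p' hp').2
    rw [h] at a1
    have hm := hp
    have hm' := hp'
    rw [Finset.mem_coe, hS2, Finset.mem_filter] at hm hm'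
    exact hm.2.1 p' hm'.1 (a1.trans a2.symm)
  have hsub : shared X ⊆ ((Bd ∪ S1 ∪ S2 : Finset (ℕ × ℕ)) : Set (ℕ × ℕ)) := by
    rintro p ⟨hp, q, hq, hqp, hr⟩
    rw [Finset.mem_coe, Finset.mem_union, Finset.mem_union]
    by_cases hb : p ∈ bad X
    · exact Or.inl (Or.inl (by rw [hBd]; exact Finset.mem_filter.2 ⟨(hTm p).2 hp, hb⟩))
    have hpG : p ∈ Gd := by rw [hGd]; exact Finset.mem_filter.2 ⟨(hTm p).2 hp, hb⟩
    by_cases hs : ∃ q ∈ Gd, p ≠ q ∧ rad3 p = rad3 q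
    · exact Or.inl (Or.inr (by rw [hS1]; exact Finset.mem_filter.2 ⟨hpG, hs⟩))
    · refine Or.inr ?_
      rw [hS2]
      refine Finset.mem_filter.2 ⟨hpG, fun q' hq' hr' => ?_, q, ?_, hr.symm⟩
      · by_contra hne
        exact hs ⟨q', hq', hne, hr'⟩
      · rw [hBd]
        refine Finset.mem_filter.2 ⟨(hTm q).2 hq, ?_⟩
        by_contra hqb
        refine hs ⟨q, ?_, hqp.symm, hr.symm⟩
        rw [hGd]
        exact Finset.mem_filter.2 ⟨(hTm q).2 hq, hqb⟩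
  have h5 := Set.ncard_le_ncard hsub (Finset.finite_toSet _)
  rw [Set.ncard_coe_finset] at h5
  have a1 := Finset.card_union_le (Bd ∪ S1) S2
  have a2 := Finset.card_union_le Bd S1
  have h6 : (shared X).ncard ≤ 2 * Bd.card + Q.card := by omega
  calc ((shared X).ncard : ℝ) ≤ ((2 * Bd.card + Q.card : ℕ) : ℝ) := by exact_mod_cast h6
    _ = 2 * (Bd.card : ℝ) + Q.card := by push_cast; ring
    _ ≤ 2 * (C1 * X ^ (2 / 3 - ν)) + C2 * X ^ (2 / 3 - ν) := by linarith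
    _ = _ := by ring

/-- the radicals of the abc triples -/
def radicals (X : ℝ) : Set ℕ := rad3 '' triples X

theorem radicals_finite (X : ℝ) : (radicals X).Finite :=
  (Pool.Agent.Y911.AA.triples_finite' X).image _

theorem radicals_le (X : ℝ) : (radicals X).ncard ≤ (triples X).ncard :=
  Set.ncard_image_le (Pool.Agent.Y911.AA.triples_finite' X)

theorem radicals_ge (X : ℝ) : (triples X).ncard ≤ (radicals X).ncard + (shared X).ncard := by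
  have hfin := Pool.Agent.Y911.AA.triples_finite' X
  have h1 : (triples X \ shared X).ncard ≤ (radicals X).ncard := by
    refine Set.ncard_le_ncard_of_injOn rad3 (fun p hp => ⟨p, hp.1, rfl⟩) ?_ (radicals_finite X)
    intro p hp q hq hpq
    by_contra hne
    exact hp.2 ⟨hp.1, q, hq.1, fun h => hne h.symm, hpq.symm⟩
  have h2 := Set.ncard_sdiff_add_ncard_of_subset (s := shared X) (t := triples X)
    (fun p hp => hp.1) hfin
  omega

/-- the number of radicals -/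
theorem radicals_tendsto {κ : ℝ}
    (h : Tendsto (fun X : ℝ => ((triples X).ncard : ℝ) / X ^ ((2 : ℝ) / 3)) atTop (𝓝 κ)) :
    Tendsto (fun X : ℝ => ((radicals X).ncard : ℝ) / X ^ ((2 : ℝ) / 3)) atTop (𝓝 κ) := by
  obtain ⟨ν, C, hν0, -, hC, hs⟩ := shared_le
  have h1 : Tendsto (fun X : ℝ => C * X ^ (-ν)) atTop (𝓝 0) := by
    have := (tendsto_rpow_neg_atTop hν0).const_mul C
    rwa [mul_zero] at this
  have h2 := h.sub h1
  rw [sub_zero] at h2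
  refine tendsto_of_tendsto_of_tendsto_of_le_of_le' h2 h ?_ ?_
  · filter_upwards [eventually_ge_atTop (1 : ℝ)] with X hX
    have hX0 : 0 < X := by linarith
    have hXp : 0 < X ^ ((2 : ℝ) / 3) := by positivity
    have h3 : ((triples X).ncard : ℝ) ≤ (radicals X).ncard + (shared X).ncard := by
      exact_mod_cast radicals_ge X
    have h4 := hs X hX
    rw [sub_le_iff_le_add, div_le_iff₀ hXp, add_mul, div_mul_cancel₀ _ hXp.ne', mul_assoc,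
      ← Real.rpow_add hX0, show -ν + 2 / 3 = 2 / 3 - ν by ring]
    linarith
  · filter_upwards [eventually_ge_atTop (1 : ℝ)] with X hX
    have hX0 : 0 < X := by linarith
    have hXp : 0 < X ^ ((2 : ℝ) / 3) := by positivity
    refine div_le_div_of_nonneg_right ?_ hXp.le
    exact_mod_cast radicals_le X

end Pool.Agent.Y911.RD
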