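import Pool.Agent.Y911.RD.Pair

/-! The number of pairs of different triples with the same radical. -/

set_option autoImplicit false

namespace Pool.Agent.Y911.RD

open Finset Pool.Agent.Results.MP_1ea25c_nt.AlmostAllTriples Pool.Agent.TH498.AR

/-- the count in terms of `B`, `W`, `Z` -/
theorem pairs_card {B W Z : ℕ} {D : ℝ} (hZB : Z ≤ B) (hB1 : 1 ≤ B) (hD0 : 0 ≤ D)
    (hD : ∀ n : ℕ, 0 < n → n ≤ 2 * W ^ 3 * Z ^ 5 → (n.divisors.card : ℝ) ≤ D)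
    (Q : Finset ((ℕ × ℕ) × (ℕ × ℕ)))
    (hQ : ∀ z ∈ Q, Good B W z.1 ∧ Good B W z.2 ∧ z.1 ≠ z.2 ∧ rad3 z.1 = rad3 z.2 ∧
      B ^ 9 * W ^ 3 < rad3 z.1 * (Z + 1) ^ 9) :
    (Q.card : ℝ) ≤ 9 * ((2 * W + 1) ^ 2 * (2 * D * ((B : ℝ) * Z + 2 * B * W) *
      (1 + Real.log B) ^ 3)) := by
  classical
  have hex : ∀ z : (ℕ × ℕ) × (ℕ × ℕ), ∃ w : (Fin 3 × Fin 3) ×
      ((ℤ × ℤ × ℕ × ℕ × ℕ) × (ℤ × ℤ × ℤ)), z ∈ Q → (Cond B W Z w.2 ∧
      (toT z.1 w.1.1 : ℤ) = w.2.1.2.2.1 * w.2.2.1 ∧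
      sg w.1.1 * (toT z.1 (kk w.1.1) : ℤ) = w.2.1.2.2.2.2 * w.2.2.2.1 ∧
      (toT z.2 w.1.2 : ℤ) = w.2.1.2.2.2.1 * w.2.2.1 ∧
      sg w.1.2 * (toT z.2 (kk w.1.2) : ℤ) = w.2.1.2.2.2.2 * w.2.2.2.2) := by
    intro z
    by_cases hz : z ∈ Q
    · obtain ⟨h1, h2, h3, h4, h5⟩ := hQ z hz
      obtain ⟨i, j, e, he⟩ := pair h1 h2 h3 h4 h5
      exact ⟨((i, j), e), fun _ => he⟩
    · exact ⟨((0, 0), ((0, 0, 0, 0, 0), (0, 0, 0))), fun h => absurd h hz⟩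
  choose f hf using hex
  have hmap : ∀ z ∈ Q, f z ∈ (univ : Finset (Fin 3 × Fin 3)) ×ˢ (Q.image fun z => (f z).2) := by
    intro z hz
    rw [mem_product]
    exact ⟨mem_univ _, mem_image.2 ⟨z, hz, rfl⟩⟩
  have hinj : Set.InjOn f (Q : Set ((ℕ × ℕ) × (ℕ × ℕ))) := by
    intro z hz z' hz' hzz
    obtain ⟨-, a1, a2, a3, a4⟩ := hf z hz
    obtain ⟨-, b1, b2, b3, b4⟩ := hf z' hz'
    obtain ⟨g1, g2, -⟩ := hQ z hz
    obtain ⟨g1', g2', -⟩ := hQ z' hz'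
    rw [← hzz] at b1 b2 b3 b4
    refine Prod.ext ?_ ?_
    · refine eq_of_same g1.ab g1'.ab (i := (f z).1.1) (j := (f z).1.1) ?_ rfl ?_
      · exact_mod_cast (a1.trans b1.symm)
      · exact_mod_cast mul_left_cancel₀ (sg_ne _) (a2.trans b2.symm)
    · refine eq_of_same g2.ab g2'.ab (i := (f z).1.2) (j := (f z).1.2) ?_ rfl ?_
      · exact_mod_cast (a3.trans b3.symm)
      · exact_mod_cast mul_left_cancel₀ (sg_ne _) (a4.trans b4.symm)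
  have h1 := card_le_card_of_injOn f hmap hinj
  rw [card_product] at h1
  have h9 : (univ : Finset (Fin 3 × Fin 3)).card = 9 := by
    rw [card_univ, Fintype.card_prod, Fintype.card_fin]
  rw [h9] at h1
  have h2 := count hZB hB1 hD0 hD (Q.image fun z => (f z).2) (fun e he => by
    obtain ⟨z, hz, rfl⟩ := mem_image.1 he
    exact (hf z hz).1)
  calc (Q.card : ℝ) ≤ ((9 * (Q.image fun z => (f z).2).card : ℕ) : ℝ) := by exact_mod_cast h1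
    _ = 9 * ((Q.image fun z => (f z).2).card : ℝ) := by push_cast; ring
    _ ≤ _ := mul_le_mul_of_nonneg_left h2 (by norm_num)

/-- **The pairs of different triples with the same radical, of moderate height.** -/
theorem pairs_count : ∃ C : ℝ, 0 < C ∧ ∀ X : ℝ, 1 ≤ X →
    ∀ Q : Finset ((ℕ × ℕ) × (ℕ × ℕ)), (∀ z ∈ Q,
      Good ⌊X ^ (1 / 3 + 1 / 240 : ℝ)⌋₊ ⌊X ^ (1 / 240 : ℝ)⌋₊ z.1 ∧
      Good ⌊X ^ (1 / 3 + 1 / 240 : ℝ)⌋₊ ⌊X ^ (1 / 240 : ℝ)⌋₊ z.2 ∧ z.1 ≠ z.2 ∧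
      rad3 z.1 = rad3 z.2 ∧ X ^ (9 / 10 : ℝ) ≤ (rad3 z.1 : ℝ)) →
    (Q.card : ℝ) ≤ C * X ^ (3 / 5 : ℝ) := by
  obtain ⟨C0, hC0, hdiv⟩ := Pool.Agent.H510R2.divisor_bound (1 / 200) (by norm_num)
  refine ⟨9 * (9 * (2 * (2 * C0) * 3 * 601 ^ 3)), by positivity, fun X hX Q hQ => ?_⟩
  have hX0 : 0 < X := by linarith
  obtain ⟨B, hB⟩ : ∃ B : ℕ, B = ⌊X ^ (1 / 3 + 1 / 240 : ℝ)⌋₊ := ⟨_, rfl⟩
  obtain ⟨W, hW⟩ : ∃ W : ℕ, W = ⌊X ^ (1 / 240 : ℝ)⌋₊ := ⟨_, rfl⟩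
  obtain ⟨Z, hZ⟩ : ∃ Z : ℕ, Z = ⌊X ^ (6 / 25 : ℝ)⌋₊ := ⟨_, rfl⟩
  rw [← hB, ← hW] at hQ
  have hBX : (B : ℝ) ≤ X ^ (1 / 3 + 1 / 240 : ℝ) := by rw [hB]; exact Nat.floor_le (by positivity)
  have hWX : (W : ℝ) ≤ X ^ (1 / 240 : ℝ) := by rw [hW]; exact Nat.floor_le (by positivity)
  have hZX : (Z : ℝ) ≤ X ^ (6 / 25 : ℝ) := by rw [hZ]; exact Nat.floor_le (by positivity)
  have hZX' : X ^ (6 / 25 : ℝ) < (Z : ℝ) + 1 := by rw [hZ]; exact Nat.lt_floor_add_one _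
  have hB1 : 1 ≤ B := by
    rw [hB]
    refine Nat.le_floor ?_
    push_cast
    exact Real.one_le_rpow hX (by norm_num)
  have hZB : Z ≤ B := by
    rw [hZ, hB]
    exact Nat.floor_mono (Real.rpow_le_rpow_of_exponent_le hX (by norm_num))
  have hkey : ∀ R : ℕ, X ^ (9 / 10 : ℝ) ≤ (R : ℝ) → B ^ 9 * W ^ 3 < R * (Z + 1) ^ 9 := by
    intro R hR
    have h1 : (B : ℝ) ^ 9 * (W : ℝ) ^ 3 ≤ X ^ (61 / 20 : ℝ) := by
      calc (B : ℝ) ^ 9 * (W : ℝ) ^ 3 ≤ (X ^ (1 / 3 + 1 / 240 : ℝ)) ^ 9 * (X ^ (1 / 240 : ℝ)) ^ 3 := by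
            gcongr
        _ = X ^ (61 / 20 : ℝ) := by
            rw [← Real.rpow_natCast, ← Real.rpow_natCast, ← Real.rpow_mul hX0.le,
              ← Real.rpow_mul hX0.le, ← Real.rpow_add hX0]
            norm_num
    have h2 : X ^ (61 / 20 : ℝ) < (R : ℝ) * ((Z : ℝ) + 1) ^ 9 := by
      calc X ^ (61 / 20 : ℝ) ≤ X ^ (9 / 10 + 6 / 25 * 9 : ℝ) :=
            Real.rpow_le_rpow_of_exponent_le hX (by norm_num)
        _ = X ^ (9 / 10 : ℝ) * (X ^ (6 / 25 : ℝ)) ^ 9 := by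
            rw [Real.rpow_add hX0, ← Real.rpow_natCast, ← Real.rpow_mul hX0.le]
            norm_num
        _ < X ^ (9 / 10 : ℝ) * ((Z : ℝ) + 1) ^ 9 := by
            refine mul_lt_mul_of_pos_left ?_ (by positivity)
            exact pow_lt_pow_left₀ hZX' (by positivity) (by norm_num)
        _ ≤ (R : ℝ) * ((Z : ℝ) + 1) ^ 9 := mul_le_mul_of_nonneg_right hR (by positivity)
    exact_mod_cast h1.trans_lt h2
  have hD : ∀ n : ℕ, 0 < n → n ≤ 2 * W ^ 3 * Z ^ 5 →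
      (n.divisors.card : ℝ) ≤ C0 * (2 * X ^ (97 / 16000 : ℝ)) := by
    intro n hn hle
    refine (hdiv n hn).trans (mul_le_mul_of_nonneg_left ?_ hC0.le)
    have h1 : (n : ℝ) ≤ 2 * X ^ (97 / 80 : ℝ) := by
      calc (n : ℝ) ≤ ((2 * W ^ 3 * Z ^ 5 : ℕ) : ℝ) := by exact_mod_cast hle
        _ = 2 * (W : ℝ) ^ 3 * (Z : ℝ) ^ 5 := by push_cast; ring
        _ ≤ 2 * (X ^ (1 / 240 : ℝ)) ^ 3 * (X ^ (6 / 25 : ℝ)) ^ 5 := by gcongr
        _ = 2 * X ^ (97 / 80 : ℝ) := by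
            rw [mul_assoc, ← Real.rpow_natCast, ← Real.rpow_natCast, ← Real.rpow_mul hX0.le,
              ← Real.rpow_mul hX0.le, ← Real.rpow_add hX0]
            norm_num
    calc (n : ℝ) ^ (1 / 200 : ℝ) ≤ (2 * X ^ (97 / 80 : ℝ)) ^ (1 / 200 : ℝ) :=
          Real.rpow_le_rpow (Nat.cast_nonneg _) h1 (by norm_num)
      _ = 2 ^ (1 / 200 : ℝ) * X ^ (97 / 16000 : ℝ) := by
          rw [Real.mul_rpow (by norm_num) (by positivity), ← Real.rpow_mul hX0.le]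
          norm_num
      _ ≤ 2 * X ^ (97 / 16000 : ℝ) := by
          refine mul_le_mul_of_nonneg_right ?_ (by positivity)
          calc (2 : ℝ) ^ (1 / 200 : ℝ) ≤ 2 ^ (1 : ℝ) :=
                Real.rpow_le_rpow_of_exponent_le (by norm_num) (by norm_num)
            _ = 2 := Real.rpow_one 2
  have hmain := pairs_card (D := C0 * (2 * X ^ (97 / 16000 : ℝ))) hZB hB1 (by positivity) hD Q
    (fun z hz => by
      obtain ⟨h1, h2, h3, h4, h5⟩ := hQ z hz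
      exact ⟨h1, h2, h3, h4, hkey _ h5⟩)
  refine hmain.trans ?_
  have hX1 : 1 ≤ X ^ (1 / 240 : ℝ) := Real.one_le_rpow hX (by norm_num)
  have e1 : (2 * (W : ℝ) + 1) ^ 2 ≤ 9 * X ^ (1 / 120 : ℝ) := by
    calc (2 * (W : ℝ) + 1) ^ 2 ≤ (3 * X ^ (1 / 240 : ℝ)) ^ 2 := by
          refine pow_le_pow_left₀ (by positivity) ?_ 2
          linarith
      _ = 9 * X ^ (1 / 120 : ℝ) := by
          rw [mul_pow, ← Real.rpow_natCast (X ^ (1 / 240 : ℝ)), ← Real.rpow_mul hX0.le]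
          norm_num
  have e2 : (B : ℝ) * Z + 2 * B * W ≤ 3 * X ^ (231 / 400 : ℝ) := by
    have k1 : (B : ℝ) * Z ≤ X ^ (231 / 400 : ℝ) := by
      calc (B : ℝ) * Z ≤ X ^ (1 / 3 + 1 / 240 : ℝ) * X ^ (6 / 25 : ℝ) := by gcongr
        _ = X ^ (231 / 400 : ℝ) := by
            rw [← Real.rpow_add hX0]
            norm_num
    have k2 : (B : ℝ) * W ≤ X ^ (231 / 400 : ℝ) := by
      calc (B : ℝ) * W ≤ X ^ (1 / 3 + 1 / 240 : ℝ) * X ^ (1 / 240 : ℝ) := by gcongr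
        _ = X ^ (1 / 3 + 1 / 120 : ℝ) := by
            rw [← Real.rpow_add hX0]
            norm_num
        _ ≤ X ^ (231 / 400 : ℝ) := Real.rpow_le_rpow_of_exponent_le hX (by norm_num)
    linarith
  have e3 : (1 + Real.log B) ^ 3 ≤ 601 ^ 3 * X ^ (1 / 200 : ℝ) := by
    have hB1' : (1 : ℝ) ≤ B := by exact_mod_cast hB1
    have k1 : Real.log B ≤ Real.log X := by
      refine Real.log_le_log (by linarith) (hBX.trans ?_)
      calc X ^ (1 / 3 + 1 / 240 : ℝ) ≤ X ^ (1 : ℝ) :=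
            Real.rpow_le_rpow_of_exponent_le hX (by norm_num)
        _ = X := Real.rpow_one X
    have k2 : Real.log X ≤ X ^ (1 / 600 : ℝ) / (1 / 600) :=
      Real.log_le_rpow_div hX0.le (by norm_num)
    have k3 : (1 : ℝ) ≤ X ^ (1 / 600 : ℝ) := Real.one_le_rpow hX (by norm_num)
    have k4 : 1 + Real.log B ≤ 601 * X ^ (1 / 600 : ℝ) := by
      rw [div_div_eq_mul_div] at k2
      linarith
    calc (1 + Real.log B) ^ 3 ≤ (601 * X ^ (1 / 600 : ℝ)) ^ 3 :=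
          pow_le_pow_left₀ (by linarith [Real.log_nonneg hB1']) k4 3
      _ = 601 ^ 3 * X ^ (1 / 200 : ℝ) := by
          rw [mul_pow, ← Real.rpow_natCast (X ^ (1 / 600 : ℝ)), ← Real.rpow_mul hX0.le]
          norm_num
  have hlog0 : 0 ≤ 1 + Real.log B := by
    have hB1' : (1 : ℝ) ≤ B := by exact_mod_cast hB1
    linarith [Real.log_nonneg hB1']
  calc 9 * ((2 * (W : ℝ) + 1) ^ 2 * (2 * (C0 * (2 * X ^ (97 / 16000 : ℝ))) *
      ((B : ℝ) * Z + 2 * B * W) * (1 + Real.log B) ^ 3)) ≤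
      9 * ((9 * X ^ (1 / 120 : ℝ)) * (2 * (C0 * (2 * X ^ (97 / 16000 : ℝ))) *
        (3 * X ^ (231 / 400 : ℝ)) * (601 ^ 3 * X ^ (1 / 200 : ℝ)))) := by gcongr
    _ = 9 * (9 * (2 * (2 * C0) * 3 * 601 ^ 3)) * (X ^ (1 / 120 : ℝ) * X ^ (97 / 16000 : ℝ) *
        X ^ (231 / 400 : ℝ) * X ^ (1 / 200 : ℝ)) := by ring
    _ = 9 * (9 * (2 * (2 * C0) * 3 * 601 ^ 3)) *
        X ^ (1 / 120 + 97 / 16000 + 231 / 400 + 1 / 200 : ℝ) := by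
        rw [Real.rpow_add hX0, Real.rpow_add hX0, Real.rpow_add hX0]
    _ ≤ _ := by
        refine mul_le_mul_of_nonneg_left ?_ (by positivity)
        exact Real.rpow_le_rpow_of_exponent_le hX (by norm_num)

end Pool.Agent.Y911.RD
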