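import Pool.Agent.Y911.RD.Cnt
import Pool.Agent.Y911.AB.Upper

/-! Two triples with the same radical give a solution. -/

set_option autoImplicit false

namespace Pool.Agent.Y911.RD

open Finset Pool.Agent.Results.MP_1ea25c_nt.AlmostAllTriples Pool.Agent.TH498.AR
open Pool.Agent.Y911.AB (radP_rad3)

/-- the second index -/
def kk : Fin 3 → Fin 3 := ![1, 0, 0]

/-- the sign -/
def sg : Fin 3 → ℤ := ![1, 1, -1]

theorem sg_sq (i : Fin 3) : sg i * sg i = 1 := by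
  fin_cases i <;> simp [sg]

theorem toT_cop {p : ℕ × ℕ} (h : Nat.Coprime p.1 p.2) (i : Fin 3) :
    Nat.Coprime (toT p i) (toT p (kk i)) := by
  fin_cases i
  · exact h
  · exact h.symm
  · show Nat.Coprime (p.1 + p.2) p.1
    rw [Nat.coprime_comm]
    simpa using h

theorem toT_id (p : ℕ × ℕ) (i : Fin 3) :
    (toT p i : ℤ) * (sg i * (toT p (kk i) : ℤ)) * ((toT p i : ℤ) + sg i * (toT p (kk i) : ℤ)) =
      sg i * ((p.1 : ℤ) * p.2 * (p.1 + p.2)) := by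
  fin_cases i
  · show (p.1 : ℤ) * (1 * (p.2 : ℤ)) * ((p.1 : ℤ) + 1 * (p.2 : ℤ)) =
      1 * ((p.1 : ℤ) * p.2 * (p.1 + p.2))
    ring
  · show (p.2 : ℤ) * (1 * (p.1 : ℤ)) * ((p.2 : ℤ) + 1 * (p.1 : ℤ)) =
      1 * ((p.1 : ℤ) * p.2 * (p.1 + p.2))
    ring
  · show ((p.1 + p.2 : ℕ) : ℤ) * (-1 * (p.1 : ℤ)) * (((p.1 + p.2 : ℕ) : ℤ) + -1 * (p.1 : ℤ)) =
      -1 * ((p.1 : ℤ) * p.2 * (p.1 + p.2))
    push_cast
    ring

theorem toT_pos {p : ℕ × ℕ} (h : 0 < p.1) (h' : p.1 ≤ p.2) (i : Fin 3) : 0 < toT p i := by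
  fin_cases i
  · exact h
  · show 0 < p.2
    omega
  · show 0 < p.1 + p.2
    omega

theorem toT_le_c (p : ℕ × ℕ) (i : Fin 3) : toT p i ≤ p.1 + p.2 := by
  fin_cases i
  · show p.1 ≤ p.1 + p.2
    omega
  · show p.2 ≤ p.1 + p.2
    omega
  · exact le_refl (p.1 + p.2)

/-- the first degenerate case -/
theorem eq_of_same {p q : ℕ × ℕ} (hp : p.1 ≤ p.2) (hq : q.1 ≤ q.2) {i j : Fin 3}
    (h1 : toT p i = toT q j) (hs : sg i = sg j)
    (h2 : (toT p (kk i)) = (toT q (kk j))) : p = q := by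
  have key : p.1 = q.1 ∧ p.2 = q.2 := by
    fin_cases i <;> fin_cases j <;> simp [toT, kk, sg] at h1 h2 hs <;> omega
  exact Prod.ext key.1 key.2

/-- the second degenerate case -/
theorem eq_of_opp {p q : ℕ × ℕ} (hp : p.1 ≤ p.2) (hq : q.1 ≤ q.2) (hp0 : 0 < p.1)
    (hq0 : 0 < q.1) {i j : Fin 3}
    (h1 : toT p i = toT q j) (hs : sg i = sg j)
    (h2 : (toT p i : ℤ) + sg i * (toT p (kk i) : ℤ) = -(sg j * (toT q (kk j) : ℤ))) : p = q := by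
  have key : p.1 = q.1 ∧ p.2 = q.2 := by
    fin_cases i <;> fin_cases j <;> simp [toT, kk, sg] at h1 h2 hs <;> omega
  exact Prod.ext key.1 key.2

/-- `c ≤ W g ^ 3` -/
theorem c_le {W g : ℕ} {p q : ℕ × ℕ} (hp0 : 0 < p.1) (hp : p.1 ≤ p.2) (hW : psi3 ∅ p ≤ W)
    (hrad : rad3 p = rad3 q) (hg : ∀ j : Fin 3, Nat.gcd (p.1 + p.2) (toT q j) ≤ g) :
    p.1 + p.2 ≤ W * g ^ 3 := by
  have hc0 : 0 < p.1 + p.2 := by omega
  have hM : 0 < Nat.gcd (p.1 + p.2) (toT q 0) * Nat.gcd (p.1 + p.2) (toT q 1) *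
      Nat.gcd (p.1 + p.2) (toT q 2) :=
    Nat.mul_pos (Nat.mul_pos (Nat.gcd_pos_of_pos_left _ hc0) (Nat.gcd_pos_of_pos_left _ hc0))
      (Nat.gcd_pos_of_pos_left _ hc0)
  have h1 : radP ∅ (p.1 + p.2) ∣ Nat.gcd (p.1 + p.2) (toT q 0) * Nat.gcd (p.1 + p.2) (toT q 1) *
      Nat.gcd (p.1 + p.2) (toT q 2) := by
    unfold radP
    refine Finset.prod_primes_dvd _ (fun a ha => ?_) (fun a ha => ?_)
    · exact (Nat.prime_of_mem_primeFactors (mem_filter.1 ha).1).prime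
    · have ha' := (mem_filter.1 ha).1
      have hpr := Nat.prime_of_mem_primeFactors ha'
      have hac := Nat.dvd_of_mem_primeFactors ha'
      have h2 : a ∣ rad3 p := by
        unfold rad3 radical
        refine dvd_prod_of_mem _ ?_
        rw [Nat.mem_primeFactors]
        refine ⟨hpr, hac.mul_left _, ?_⟩
        have : 0 < p.2 := by omega
        positivity
      rw [hrad] at h2
      have h3 : a ∣ q.1 * q.2 * (q.1 + q.2) := h2.trans (Nat.prod_primeFactors_dvd _)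
      rcases (Nat.Prime.dvd_mul hpr).1 h3 with h4 | h4
      · rcases (Nat.Prime.dvd_mul hpr).1 h4 with h5 | h5
        · have : a ∣ Nat.gcd (p.1 + p.2) (toT q 0) := Nat.dvd_gcd hac h5
          exact (this.mul_right _).mul_right _
        · have : a ∣ Nat.gcd (p.1 + p.2) (toT q 1) := Nat.dvd_gcd hac h5
          exact (this.mul_left _).mul_right _
      · have : a ∣ Nat.gcd (p.1 + p.2) (toT q 2) := Nat.dvd_gcd hac h4
        exact this.mul_left _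
  have h2 := Nat.le_of_dvd hM h1
  have h3 : Nat.gcd (p.1 + p.2) (toT q 0) * Nat.gcd (p.1 + p.2) (toT q 1) *
      Nat.gcd (p.1 + p.2) (toT q 2) ≤ g * g * g :=
    Nat.mul_le_mul (Nat.mul_le_mul (hg 0) (hg 1)) (hg 2)
  have h4 : psiP ∅ (p.1 + p.2) ≤ W := by
    refine le_trans ?_ hW
    unfold psi3
    exact Nat.le_mul_of_pos_left _ (Nat.mul_pos (psiP_pos hp0) (psiP_pos (by omega)))
  calc p.1 + p.2 = psiP ∅ (p.1 + p.2) * radP ∅ (p.1 + p.2) := (psiP_mul _ _).symm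
    _ ≤ W * (g * g * g) := Nat.mul_le_mul h4 (h2.trans h3)
    _ = W * g ^ 3 := by ring

/-- the good triples -/
structure Good (B W : ℕ) (p : ℕ × ℕ) : Prop where
  a0 : 0 < p.1
  ab : p.1 ≤ p.2
  cop : Nat.Coprime p.1 p.2
  cB : p.1 + p.2 ≤ B
  psi : psi3 ∅ p ≤ W

/-- the conditions of `count` -/
def Cond (B W Z : ℕ) (e : (ℤ × ℤ × ℕ × ℕ × ℕ) × (ℤ × ℤ × ℤ)) : Prop :=
  Sol e.1.1 e.1.2.1 e.1.2.2.1 e.1.2.2.2.1 e.2.1 e.1.2.2.2.2 e.2.2.1 e.2.2.2 ∧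
      |e.1.1| ≤ W ∧ |e.1.2.1| ≤ W ∧ e.1.2.2.1 ≤ Z ∧ e.1.2.2.2.1 ≤ Z ∧
      e.1.2.2.2.2 * e.1.2.2.1 ≤ B ∧
      |(e.1.2.2.2.2 : ℝ) * (e.2.2.1 : ℝ)| ≤ B ∧ |(e.1.2.2.2.2 : ℝ) * (e.2.2.2 : ℝ)| ≤ B ∧
      e.1.1 * (e.1.2.2.1 : ℤ) ^ 2 * e.2.2.1 - e.1.2.1 * (e.1.2.2.2.1 : ℤ) ^ 2 * e.2.2.2 ≠ 0 ∧
      e.1.1 * (e.1.2.2.1 : ℤ) ^ 3 - e.1.2.1 * (e.1.2.2.2.1 : ℤ) ^ 3 ≠ 0

theorem abs_sg_mul (i : Fin 3) (n : ℤ) : |sg i * n| = |n| := by
  fin_cases i <;> simp [sg]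

theorem sg_ne (i : Fin 3) : sg i ≠ 0 := by
  fin_cases i <;> simp [sg]

theorem sg_unit (i : Fin 3) : IsUnit (sg i) := IsUnit.of_mul_eq_one _ (sg_sq i)

/-- **Two different triples with the same radical.** -/
theorem pair {B W Z : ℕ} {p q : ℕ × ℕ} (hp : Good B W p) (hq : Good B W q) (hpq : p ≠ q)
    (hrad : rad3 p = rad3 q) (hZ : B ^ 9 * W ^ 3 < rad3 p * (Z + 1) ^ 9) :
    ∃ (i j : Fin 3) (e : (ℤ × ℤ × ℕ × ℕ × ℕ) × (ℤ × ℤ × ℤ)), Cond B W Z e ∧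
      (toT p i : ℤ) = e.1.2.2.1 * e.2.1 ∧ sg i * (toT p (kk i) : ℤ) = e.1.2.2.2.2 * e.2.2.1 ∧
      (toT q j : ℤ) = e.1.2.2.2.1 * e.2.1 ∧
      sg j * (toT q (kk j) : ℤ) = e.1.2.2.2.2 * e.2.2.2 := by
  obtain ⟨⟨i, j⟩, -, hmax⟩ := (univ : Finset (Fin 3 × Fin 3)).exists_max_image
    (fun z => Nat.gcd (toT p z.1) (toT q z.2)) ⟨(0, 0), mem_univ _⟩
  have hmax' : ∀ k l : Fin 3, Nat.gcd (toT p k) (toT q l) ≤ Nat.gcd (toT p i) (toT q j) :=
    fun k l => hmax (k, l) (mem_univ _)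
  obtain ⟨g, hg⟩ : ∃ g : ℕ, g = Nat.gcd (toT p i) (toT q j) := ⟨_, rfl⟩
  obtain ⟨h, hh⟩ : ∃ h : ℕ, h = Nat.gcd (toT p (kk i)) (toT q (kk j)) := ⟨_, rfl⟩
  have hgh : h ≤ g := by rw [hg, hh]; exact hmax' _ _
  have pi0 := toT_pos hp.a0 hp.ab i
  have pk0 := toT_pos hp.a0 hp.ab (kk i)
  have qj0 := toT_pos hq.a0 hq.ab j
  have qk0 := toT_pos hq.a0 hq.ab (kk j)
  have hg0 : 0 < g := by rw [hg]; exact Nat.gcd_pos_of_pos_left _ pi0
  have hh0 : 0 < h := by rw [hh]; exact Nat.gcd_pos_of_pos_left _ pk0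
  obtain ⟨r, hr⟩ : ∃ r : ℕ, r = toT p i / g := ⟨_, rfl⟩
  obtain ⟨s, hs⟩ : ∃ s : ℕ, s = toT q j / g := ⟨_, rfl⟩
  obtain ⟨x, hx⟩ : ∃ x : ℕ, x = toT p (kk i) / h := ⟨_, rfl⟩
  obtain ⟨y, hy⟩ : ∃ y : ℕ, y = toT q (kk j) / h := ⟨_, rfl⟩
  have er : toT p i = r * g := by
    rw [hr, Nat.div_mul_cancel]; rw [hg]; exact Nat.gcd_dvd_left _ _
  have es : toT q j = s * g := by
    rw [hs, Nat.div_mul_cancel]; rw [hg]; exact Nat.gcd_dvd_right _ _
  have ex : toT p (kk i) = h * x := by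
    rw [hx, Nat.mul_div_cancel']; rw [hh]; exact Nat.gcd_dvd_left _ _
  have ey : toT q (kk j) = h * y := by
    rw [hy, Nat.mul_div_cancel']; rw [hh]; exact Nat.gcd_dvd_right _ _
  have hr0 : 0 < r := Nat.pos_of_mul_pos_right (by rw [← er]; exact pi0)
  have hs0 : 0 < s := Nat.pos_of_mul_pos_right (by rw [← es]; exact qj0)
  have hx0 : 0 < x := Nat.pos_of_mul_pos_left (by rw [← ex]; exact pk0)
  have hy0 : 0 < y := Nat.pos_of_mul_pos_left (by rw [← ey]; exact qk0)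
  have crs : Nat.Coprime r s := by
    rw [hr, hs, hg]
    exact Nat.coprime_div_gcd_div_gcd (by rw [← hg]; exact hg0)
  have cxy : Nat.Coprime x y := by
    rw [hx, hy, hh]
    exact Nat.coprime_div_gcd_div_gcd (by rw [← hh]; exact hh0)
  have c1 := toT_cop hp.cop i
  have c2 := toT_cop hq.cop j
  rw [er, ex] at c1
  rw [es, ey] at c2
  have hpsip : 0 < psi3 ∅ p := Nat.mul_pos (Nat.mul_pos (psiP_pos hp.a0)
    (psiP_pos (by have := hp.a0; have := hp.ab; omega))) (psiP_pos (by have := hp.a0; omega))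
  have hpsiq : 0 < psi3 ∅ q := Nat.mul_pos (Nat.mul_pos (psiP_pos hq.a0)
    (psiP_pos (by have := hq.a0; have := hq.ab; omega))) (psiP_pos (by have := hq.a0; omega))
  have hidp := toT_id p i
  have hidq := toT_id q j
  rw [er, ex] at hidp
  rw [es, ey] at hidq
  push_cast at hidp hidq
  have hradp : (psi3 ∅ p : ℤ) * rad3 p = (p.1 : ℤ) * p.2 * (p.1 + p.2) := by
    have := coprime3 (P := ∅) hp.cop
    rw [radP_rad3] at this
    exact_mod_cast this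
  have hradq : (psi3 ∅ q : ℤ) * rad3 q = (q.1 : ℤ) * q.2 * (q.1 + q.2) := by
    have := coprime3 (P := ∅) hq.cop
    rw [radP_rad3] at this
    exact_mod_cast this
  have hS : Sol ((psi3 ∅ q : ℤ) * sg i) ((psi3 ∅ p : ℤ) * sg j) (r : ℤ) (s : ℤ) (g : ℤ) (h : ℤ)
      (sg i * (x : ℤ)) (sg j * (y : ℤ)) := by
    refine ⟨mul_ne_zero (by exact_mod_cast hpsiq.ne') (sg_ne i),
      mul_ne_zero (by exact_mod_cast hpsip.ne') (sg_ne j), by exact_mod_cast hr0,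
      by exact_mod_cast hs0, by exact_mod_cast hg0, by exact_mod_cast hh0,
      mul_ne_zero (sg_ne i) (by exact_mod_cast hx0.ne'),
      mul_ne_zero (sg_ne j) (by exact_mod_cast hy0.ne'),
      Nat.isCoprime_iff_coprime.2 crs, ?_, ?_, ?_, ?_⟩
    · rw [isCoprime_mul_unit_left_left (sg_unit i), isCoprime_mul_unit_left_right (sg_unit j)]
      exact Nat.isCoprime_iff_coprime.2 cxy
    · have := Nat.isCoprime_iff_coprime.2 c1
      push_cast at this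
      rw [mul_left_comm, isCoprime_mul_unit_left_right (sg_unit i)]
      exact this
    · have := Nat.isCoprime_iff_coprime.2 c2
      push_cast at this
      rw [mul_left_comm, isCoprime_mul_unit_left_right (sg_unit j)]
      exact this
    · have e1 := sg_sq i
      have e2 := sg_sq j
      rw [hrad] at hradp
      linear_combination (psi3 ∅ q * sg i : ℤ) * hidp - (psi3 ∅ p * sg j : ℤ) * hidq +
        (psi3 ∅ q * ((p.1 : ℤ) * p.2 * (p.1 + p.2))) * e1 -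
        (psi3 ∅ p * ((q.1 : ℤ) * q.2 * (q.1 + q.2))) * e2 - (psi3 ∅ q : ℤ) * hradp +
        (psi3 ∅ p : ℤ) * hradq
  have hsize : ∀ m : ℕ, g * m ≤ B → m ≤ Z := by
    intro m hm
    by_contra hcon
    have hm1 : Z + 1 ≤ m := not_le.1 hcon
    have k1 : p.1 + p.2 ≤ W * g ^ 3 := by
      refine c_le hp.a0 hp.ab hp.psi hrad fun l => ?_
      rw [hg]
      exact hmax' 2 l
    have k2 : rad3 p ≤ (p.1 + p.2) ^ 3 := by
      have hpos : 0 < p.1 * p.2 * (p.1 + p.2) := by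
        have := hp.a0
        have := hp.ab
        have : 0 < p.2 := by omega
        positivity
      have k3 : rad3 p ≤ p.1 * p.2 * (p.1 + p.2) :=
        Nat.le_of_dvd hpos (Nat.prod_primeFactors_dvd _)
      refine k3.trans ?_
      rw [pow_succ, pow_two]
      gcongr
      · omega
      · omega
    have k4 : rad3 p * (Z + 1) ^ 9 ≤ B ^ 9 * W ^ 3 := by
      calc rad3 p * (Z + 1) ^ 9 ≤ (W * g ^ 3) ^ 3 * m ^ 9 :=
            Nat.mul_le_mul (k2.trans (Nat.pow_le_pow_left k1 3)) (Nat.pow_le_pow_left hm1 9)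
        _ = (g * m) ^ 9 * W ^ 3 := by ring
        _ ≤ B ^ 9 * W ^ 3 := Nat.mul_le_mul_right _ (Nat.pow_le_pow_left hm 9)
    omega
  have hsgW : ∀ (l : Fin 3) (n : ℕ), n ≤ W → |(n : ℤ) * sg l| ≤ W := by
    intro l n hn
    rw [mul_comm, abs_sg_mul, Nat.abs_cast]
    exact_mod_cast hn
  have hsgB : ∀ (l : Fin 3) (n : ℕ), h * n ≤ B → |(h : ℝ) * ((sg l * (n : ℤ) : ℤ) : ℝ)| ≤ B := by
    intro l n hn
    have e1 : |((h : ℤ) * (sg l * (n : ℤ)))| = ((h * n : ℕ) : ℤ) := by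
      rw [mul_left_comm, abs_sg_mul, ← Nat.cast_mul, Nat.abs_cast]
    have e2 : |(h : ℝ) * ((sg l * (n : ℤ) : ℤ) : ℝ)| = ((h * n : ℕ) : ℝ) := by
      have : (((|((h : ℤ) * (sg l * (n : ℤ)))| : ℤ)) : ℝ) = ((((h * n : ℕ) : ℤ)) : ℝ) := by
        rw [e1]
      rw [Int.cast_abs] at this
      push_cast at this ⊢
      exact this
    rw [e2]
    exact_mod_cast hn
  have hnd : ¬ ((psi3 ∅ q : ℤ) * sg i * (r : ℤ) ^ 2 * (sg i * (x : ℤ)) -
      (psi3 ∅ p : ℤ) * sg j * (s : ℤ) ^ 2 * (sg j * (y : ℤ)) = 0 ∨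
      (psi3 ∅ q : ℤ) * sg i * (r : ℤ) ^ 3 - (psi3 ∅ p : ℤ) * sg j * (s : ℤ) ^ 3 = 0) := by
    intro hd
    obtain ⟨d1, d2, d3, d4⟩ := hS.degenerate hd
    have r1 : r = 1 := by exact_mod_cast d1
    have s1 : s = 1 := by exact_mod_cast d2
    have hsame : toT p i = toT q j := by rw [er, es, r1, s1]
    have hsg : sg i = sg j := by
      have a1 : (0 : ℤ) < psi3 ∅ p := by exact_mod_cast hpsip
      have a2 : (0 : ℤ) < psi3 ∅ q := by exact_mod_cast hpsiq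
      revert d3
      fin_cases i <;> fin_cases j <;> simp [sg] <;> omega
    rcases d4 with d4 | d4
    · refine hpq (eq_of_same hp.ab hq.ab hsame hsg ?_)
      rw [hsg] at d4
      have : (x : ℤ) = y := mul_left_cancel₀ (sg_ne j) d4
      have : x = y := by exact_mod_cast this
      rw [ex, ey, this]
    · refine hpq (eq_of_opp hp.ab hq.ab hp.a0 hq.a0 hsame hsg ?_)
      rw [ex, ey, er, r1]
      push_cast
      linear_combination d4
  refine ⟨i, j, (((psi3 ∅ q : ℤ) * sg i, (psi3 ∅ p : ℤ) * sg j, r, s, h),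
    ((g : ℤ), sg i * (x : ℤ), sg j * (y : ℤ))), ⟨hS, hsgW _ _ hq.psi, hsgW _ _ hp.psi, ?_, ?_, ?_,
      hsgB _ _ ?_, hsgB _ _ ?_, ?_, ?_⟩, ?_, ?_, ?_, ?_⟩
  · refine hsize r ?_
    rw [mul_comm, ← er]
    exact (toT_le_c p i).trans hp.cB
  · refine hsize s ?_
    rw [mul_comm, ← es]
    exact (toT_le_c q j).trans hq.cB
  · show h * r ≤ B
    calc h * r ≤ g * r := Nat.mul_le_mul_right _ hgh
      _ = toT p i := by rw [er, mul_comm]
      _ ≤ B := (toT_le_c p i).trans hp.cB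
  · rw [← ex]
    exact (toT_le_c p _).trans hp.cB
  · rw [← ey]
    exact (toT_le_c q _).trans hq.cB
  · exact fun h0 => hnd (Or.inl h0)
  · exact fun h0 => hnd (Or.inr h0)
  · show (toT p i : ℤ) = (r : ℤ) * (g : ℤ)
    rw [er]
    push_cast
    ring
  · show sg i * (toT p (kk i) : ℤ) = (h : ℤ) * (sg i * (x : ℤ))
    rw [ex]
    push_cast
    ring
  · show (toT q j : ℤ) = (s : ℤ) * (g : ℤ)
    rw [es]
    push_cast
    ring
  · show sg j * (toT q (kk j) : ℤ) = (h : ℤ) * (sg j * (y : ℤ))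
    rw [ey]
    push_cast
    ring

end Pool.Agent.Y911.RD
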